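import Pool.Agent.W2helper74.CY.Defs

/-!
# Nef and semiample classes on products
-/

set_option autoImplicit false

namespace Pool.Agent.W2helper74.CY

open Finset
open Pool.Agent.X324.CF

section Single

variable {ρ : ℕ} {R : Type*} [CommRing R] [Algebra ℂ R] {𝒜 : Cl ρ → Submodule ℂ R}
  [GradedAlgebra 𝒜] {u β : Cl ρ}

theorem FreeF.mul {m : ℕ} (h : FreeF 𝒜 u m β) (k : ℕ) : FreeF 𝒜 u (k * m) β := by
  intro p hp
  obtain ⟨r, hr, h0⟩ := h p hp
  refine ⟨r ^ k, ?_, ?_⟩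
  · rw [mul_smul]
    exact SetLike.pow_mem_graded k hr
  · rw [map_pow]
    exact pow_ne_zero k h0

theorem FreeF.mono {m m' : ℕ} (hd : m ∣ m') (h : FreeF 𝒜 u m β) : FreeF 𝒜 u m' β := by
  obtain ⟨k, rfl⟩ := hd
  rw [mul_comm]
  exact h.mul k

end Single

variable {ρ : ℕ} {R : Type*} [CommRing R] [Algebra ℂ R] {𝒜 : Cl ρ → Submodule ℂ R} {u β : Cl ρ}
  {K : Type*} [Fintype K] {ρ' : K → ℕ} {S : K → Type*} [∀ i, CommRing (S i)]
  [∀ i, Algebra ℂ (S i)] {ℬ : ∀ i, Cl (ρ' i) → Submodule ℂ (S i)} {t : ∀ i, Cl (ρ' i)}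
  {e : Cl ρ ≃+ ∀ i, Cl (ρ' i)} {ι : ∀ i, S i →ₐ[ℂ] R}

theorem IsProduct.mem (P : IsProduct 𝒜 u ℬ t e ι) {s : ∀ i, S i}
    (h : ∀ i, s i ∈ ℬ i (e β i)) : ∏ i, ι i (s i) ∈ 𝒜 β := by
  rw [P.kunneth]
  exact Submodule.subset_span ⟨s, h, rfl⟩

/-- A section which does not vanish at a point gives sections on the factors. -/
theorem IsProduct.sec (P : IsProduct 𝒜 u ℬ t e ι) {r : R} (hr : r ∈ 𝒜 β) {p : R →ₐ[ℂ] ℂ}
    (hp : p r ≠ 0) : ∃ s : ∀ i, S i, (∀ i, s i ∈ ℬ i (e β i)) ∧ ∀ i, p (ι i (s i)) ≠ 0 := by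
  by_contra hcon
  push Not at hcon
  apply hp
  rw [P.kunneth] at hr
  refine Submodule.span_induction (p := fun r _ => p r = 0) ?_ (map_zero p)
    (fun a b _ _ ha hb => by rw [map_add, ha, hb, add_zero])
    (fun c a _ ha => by rw [map_smul, ha, smul_zero]) hr
  rintro _ ⟨s, hs, rfl⟩
  obtain ⟨i, hi⟩ := hcon s hs
  rw [map_prod]
  exact Finset.prod_eq_zero (Finset.mem_univ i) hi

theorem IsProduct.semistable (P : IsProduct 𝒜 u ℬ t e ι) {p : R →ₐ[ℂ] ℂ}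
    (hp : Semistable 𝒜 u p) (i : K) : Semistable (ℬ i) (t i) (p.comp (ι i)) := by
  obtain ⟨m, hm, r, hr, h0⟩ := hp
  obtain ⟨s, hs, hs0⟩ := P.sec hr h0
  refine ⟨m, hm, s i, ?_, hs0 i⟩
  have h1 := hs i
  rwa [map_nsmul, P.ample] at h1

variable [∀ i, GradedAlgebra (ℬ i)]

theorem IsProduct.semistable_of (P : IsProduct 𝒜 u ℬ t e ι) {p : R →ₐ[ℂ] ℂ}
    (h : ∀ i, Semistable (ℬ i) (t i) (p.comp (ι i))) : Semistable 𝒜 u p := by
  choose m hm r hr h0 using h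
  have hdvd : ∀ i, m i ∣ ∏ j, m j := fun i => Finset.dvd_prod_of_mem m (Finset.mem_univ i)
  choose k hk using hdvd
  refine ⟨∏ j, m j, Finset.prod_pos fun j _ => hm j, ∏ i, ι i (r i ^ k i), ?_, ?_⟩
  · apply P.mem
    intro i
    have h1 : (e ((∏ j, m j) • u)) i = k i • (m i • t i) := by
      rw [map_nsmul, P.ample, smul_smul, mul_comm (k i), ← hk i]
      rfl
    rw [h1]
    exact SetLike.pow_mem_graded (k i) (hr i)
  · rw [map_prod]
    refine Finset.prod_ne_zero_iff.2 fun i _ => ?_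
    rw [map_pow, map_pow]
    exact pow_ne_zero _ (h0 i)

omit [∀ i, GradedAlgebra (ℬ i)] in
theorem IsProduct.free (P : IsProduct 𝒜 u ℬ t e ι) {m : ℕ}
    (h : ∀ i, FreeF (ℬ i) (t i) m (e β i)) : FreeF 𝒜 u m β := by
  intro p hp
  choose s hs h0 using fun i => h i _ (P.semistable hp i)
  refine ⟨∏ i, ι i (s i), ?_, ?_⟩
  · apply P.mem
    intro i
    rw [map_nsmul]
    exact hs i
  · rw [map_prod]
    exact Finset.prod_ne_zero_iff.2 fun i _ => h0 i

theorem IsProduct.free_factor (P : IsProduct 𝒜 u ℬ t e ι) {m : ℕ} (h : FreeF 𝒜 u m β) (i : K) :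
    FreeF (ℬ i) (t i) m (e β i) := by
  classical
  intro q hq
  choose q₀ hq₀ using P.point
  obtain ⟨p, hp⟩ := P.joint (Function.update q₀ i q)
  have hss : Semistable 𝒜 u p := P.semistable_of fun j => by
    rw [hp]
    by_cases hj : j = i
    · subst hj
      rwa [Function.update_self]
    · rw [Function.update_of_ne hj]
      exact hq₀ j
  obtain ⟨r, hr, h0⟩ := h p hss
  obtain ⟨s, hs, hs0⟩ := P.sec hr h0
  refine ⟨s i, ?_, ?_⟩
  · have h1 := hs i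
    rwa [map_nsmul] at h1
  · have h1 := hs0 i
    have h2 : p (ι i (s i)) = (p.comp (ι i)) (s i) := rfl
    rwa [h2, hp, Function.update_self] at h1

/-- Semiample classes on a product. -/
theorem IsProduct.semi_iff (P : IsProduct 𝒜 u ℬ t e ι) :
    SemiampleF 𝒜 u β ↔ ∀ i, SemiampleF (ℬ i) (t i) (e β i) := by
  constructor
  · rintro ⟨m, hm, h⟩ i
    exact ⟨m, hm, P.free_factor h i⟩
  · intro h
    choose m hm h1 using h
    refine ⟨∏ i, m i, Finset.prod_pos fun i _ => hm i, P.free fun i => ?_⟩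
    exact FreeF.mono (Finset.dvd_prod_of_mem m (Finset.mem_univ i)) (h1 i)

/-- Nef classes on a product. -/
theorem IsProduct.nef_iff (P : IsProduct 𝒜 u ℬ t e ι) :
    NefF 𝒜 u β ↔ ∀ i, NefF (ℬ i) (t i) (e β i) := by
  have h1 : ∀ k : ℕ, ∀ i, e (k • β + u) i = k • e β i + t i := by
    intro k i
    rw [map_add, map_nsmul, P.ample]
    rfl
  constructor
  · intro h i k
    have h2 := P.semi_iff.1 (h k) i
    rwa [h1] at h2
  · intro h k
    refine P.semi_iff.2 fun i => ?_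
    rw [h1]
    exact h i k

end Pool.Agent.W2helper74.CY
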