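import Pool.Agent.X324.CF.Defs

/-!
# Nef sheaves on quotients `(A × F) / G`: definitions

`A = V / Λ` is a complex torus, `F` a normal projective variety with free class group `Cl(F) = ℤ^ρ`,
`R = ⨁ 𝒜 β` with `𝒜 β = H⁰(F, O_F(β))` (this ring need not be finitely generated), and
`X = (V × F) / Γ = (A × F) / G`. `Cl`, `Semistable`, `SemiampleF`, `Grp`, `base`, `Inv`, `IsQuotient`,
`Sheaf`, `IsPowSection`, `IsSemiample` and `IsChern` are defined in `Pool.Agent.X324.CF.Defs`.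
-/

set_option autoImplicit false

namespace Pool.Agent.W2helper74.CY

open Pool.Agent.W594.SYZ2 Pool.Agent.TH735.AQ Pool.Agent.X324.CF

section Fibre

variable {ρ : ℕ} {R : Type*} [CommRing R] [Algebra ℂ R] (𝒜 : Cl ρ → Submodule ℂ R) (u : Cl ρ)

/-- `F` is a normal projective variety with free class group `Cl(F) = ℤ^ρ` and ample class `u`, and
`𝒜 β = H⁰(F, O_F(β))`. The conditions which are used are: `F` is not empty, the only functions on `F`
are the constants, every class becomes effective when a multiple of `u` is added, and a multiple of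
`u` is generated by global sections. (`F` need not be `ℚ`-factorial and `R` need not be finitely
generated.) -/
structure IsProjectiveVariety : Prop where
  point : ∃ p : R →ₐ[ℂ] ℂ, Semistable 𝒜 u p
  const : ∀ r ∈ 𝒜 0, ∃ c : ℂ, r = algebraMap ℂ R c
  sections : ∀ β : Cl ρ, ∃ m : ℕ, (∃ r ∈ 𝒜 (β + m • u), r ≠ 0) ∧ ∃ r ∈ 𝒜 (m • u), r ≠ 0
  semiample : SemiampleF 𝒜 u u

/-- The sheaf `O_F(m β)` is generated by global sections: at each point of `F` it has a section which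
does not vanish there. -/
def FreeF (m : ℕ) (β : Cl ρ) : Prop :=
  ∀ p : R →ₐ[ℂ] ℂ, Semistable 𝒜 u p → ∃ r ∈ 𝒜 (m • β), p r ≠ 0

/-- The class `β` is nef on `F`, by Kleiman's criterion: `k β + u` is semiample for all `k`. (If `β`
is nef then `k β + u` is ample, and if `k β + u` is semiample, hence nef, for all `k` then `β` is
nef.) -/
def NefF (β : Cl ρ) : Prop := ∀ k : ℕ, SemiampleF 𝒜 u (k • β + u)

/-- `F` is the product of the varieties `F_i`, with the section rings `S i = ⨁ ℬ i β`. The class group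
of `F` is the sum of the class groups of the `F_i` (this is the isomorphism `e`), the ample class `u` of
`F` is the sum of the ample classes `t i` of the `F_i`, the sections of `O_F(β)` are the sums of products
of sections of the `O_{F_i}(e β i)` (Künneth; `ι i` is the pullback of sections), and points of the
spectra of the rings `S i` give a point of the spectrum of `R`. -/
structure IsProduct {K : Type*} [Fintype K] {ρ' : K → ℕ} {S : K → Type*} [∀ i, CommRing (S i)]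
    [∀ i, Algebra ℂ (S i)] (ℬ : ∀ i, Cl (ρ' i) → Submodule ℂ (S i)) (t : ∀ i, Cl (ρ' i))
    (e : Cl ρ ≃+ ∀ i, Cl (ρ' i)) (ι : ∀ i, S i →ₐ[ℂ] R) : Prop where
  point : ∀ i, ∃ q : S i →ₐ[ℂ] ℂ, Semistable (ℬ i) (t i) q
  ample : e u = t
  kunneth : ∀ β, 𝒜 β = Submodule.span ℂ
    {r | ∃ s : ∀ i, S i, (∀ i, s i ∈ ℬ i (e β i)) ∧ r = ∏ i, ι i (s i)}
  joint : ∀ q : ∀ i, S i →ₐ[ℂ] ℂ, ∃ p : R →ₐ[ℂ] ℂ, ∀ i, p.comp (ι i) = q i

end Fibre

section Quotient

variable {V R : Type*} [NormedAddCommGroup V] [NormedSpace ℂ V] [CommRing R] [Algebra ℂ R]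
  {ρ : ℕ} {𝒜 : Cl ρ → Submodule ℂ R} {Γ : Grp V R}

/-- The sheaf `𝓛^{[k]} ⊗ 𝓐` (reflexive tensor product). -/
def twist (𝓛 𝓐 : Sheaf 𝒜 Γ) (k : ℕ) : Sheaf 𝒜 Γ where
  deg := k • 𝓛.deg + 𝓐.deg
  e := fun γ v => 𝓛.e γ v ^ k * 𝓐.e γ v
  holo := fun γ => ((𝓛.holo γ).pow k).mul (𝓐.holo γ)
  ne_zero := fun γ v => mul_ne_zero (pow_ne_zero k (𝓛.ne_zero γ v)) (𝓐.ne_zero γ v)
  mul := fun γ δ v => by rw [𝓛.mul, 𝓐.mul, mul_pow]; ring
  inv := fun γ hγ σ hσ => by rw [map_add, map_nsmul, 𝓛.inv γ hγ σ hσ, 𝓐.inv γ hγ σ hσ]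
  triv := fun γ χ h1 h2 v => by
    rw [ofAdd_add, ofAdd_nsmul, map_mul, map_pow, mul_mul_mul_comm, ← mul_pow,
      𝓛.triv γ χ h1 h2, 𝓐.triv γ χ h1 h2, one_pow, mul_one]

/-- The sheaf `𝓐` is ample: its Chern form in the direction of `V` is positive definite and its degree
is a positive multiple of the ample class `u` of `F`. (Not all ample sheaves have such a degree, but
one of them is enough to define nefness.) -/
def IsAmple (u : Cl ρ) (𝓐 : Sheaf 𝒜 Γ) : Prop :=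
  (∃ H : V → V → ℂ, 𝓐.IsChern H ∧ IsPositiveForm H) ∧ ∃ c : ℕ, 0 < c ∧ 𝓐.deg = c • u

/-- The sheaf `𝓛` is nef, by Kleiman's criterion: `𝓛^{[k]} ⊗ 𝓐` is semiample for all `k`, for an ample
sheaf `𝓐`. (If `𝓛` is nef then `𝓛^{[k]} ⊗ 𝓐` is ample for all `k` and every ample `𝓐`. If the sheaves
`𝓛^{[k]} ⊗ 𝓐` are semiample, hence nef, then `𝓛` is the limit of the nef `ℚ`-divisors
`𝓛 + 𝓐 / k`.) -/
def IsNef (u : Cl ρ) (𝓛 : Sheaf 𝒜 Γ) : Prop :=
  ∃ 𝓐 : Sheaf 𝒜 Γ, IsAmple u 𝓐 ∧ ∀ k : ℕ, (twist 𝓛 𝓐 k).IsSemiample u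

/-- The power `𝓛^{[m]}` is generated by global sections: at each point of `X` it has a section which
does not vanish there. -/
def Generated (u : Cl ρ) (𝓛 : Sheaf 𝒜 Γ) (m : ℕ) : Prop :=
  ∀ (v : V) (p : R →ₐ[ℂ] ℂ), Semistable 𝒜 u p → ∃ f, 𝓛.IsPowSection m f ∧ p (f v) ≠ 0

/-- The order of the finite group of the automorphisms of `F` which occur in `Γ`. -/
noncomputable def order (Γ : Grp V R) : ℕ := Nat.card (Γ.map (MonoidHom.snd _ _))

end Quotient

end Pool.Agent.W2helper74.CY
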