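import Pool.Agent.W2helper74.CY.Defs
import Pool.Agent.X324.CF.Cls
import Pool.Agent.R800.UB.Amp
import Pool.Agent.TH735.AQ.Nec

/-!
# Nef sheaves on quotients `(A × F) / G`
-/

set_option autoImplicit false

namespace Pool.Agent.W2helper74.CY

open Finset
open Pool.Agent.W594.SYZ2 Pool.Agent.W594.SYZ2.TQ Pool.Agent.TH735.AQ Pool.Agent.X324.CF
open Pool.Agent.R893.TQ (BaseFree)
open Pool.Agent.R800.UA (gl3 gl3_pos power_uni exists_bpf_eff)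
open Pool.Agent.R800.UB (ample_eff)

section Fibre

variable {ρ : ℕ} {R : Type*} [CommRing R] [Algebra ℂ R] {𝒜 : Cl ρ → Submodule ℂ R} {u β β' : Cl ρ}

theorem semi_of_nsmul {k : ℕ} (hk : 0 < k) (h : SemiampleF 𝒜 u (k • β)) : SemiampleF 𝒜 u β := by
  obtain ⟨m, hm, h1⟩ := h
  refine ⟨m * k, Nat.mul_pos hm hk, fun p hp => ?_⟩
  obtain ⟨r, hr, h0⟩ := h1 p hp
  exact ⟨r, by rwa [mul_smul], h0⟩

theorem base_of (hF : IsProjectiveVariety 𝒜 u) : Base 𝒜 (Fin.elim0 : Fin 0 → Cl ρ) where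
  gens := fun H hH => by
    rw [eq_top_iff]
    intro β _
    obtain ⟨m, h1, h2⟩ := hF.sections β
    have h3 := H.sub_mem (hH _ h1) (hH _ h2)
    rwa [add_sub_cancel_right] at h3
  pointed := fun c _ => Subsingleton.elim _ _

variable [GradedAlgebra 𝒜]

theorem semi_zero : SemiampleF 𝒜 u 0 :=
  ⟨1, one_pos, fun p _ => ⟨1, by rw [smul_zero]; exact SetLike.GradedOne.one_mem, by
    rw [map_one]; exact one_ne_zero⟩⟩

theorem semi_add (h : SemiampleF 𝒜 u β) (h' : SemiampleF 𝒜 u β') : SemiampleF 𝒜 u (β + β') := by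
  obtain ⟨m, hm, h1⟩ := h
  obtain ⟨m', hm', h2⟩ := h'
  refine ⟨m * m', Nat.mul_pos hm hm', fun p hp => ?_⟩
  obtain ⟨r, hr, hr0⟩ := h1 p hp
  obtain ⟨s, hs, hs0⟩ := h2 p hp
  refine ⟨r ^ m' * s ^ m, ?_, ?_⟩
  · have e : (m * m') • (β + β') = m' • (m • β) + m • (m' • β') := by
      rw [smul_add, mul_comm m m', mul_smul, mul_comm m' m, mul_smul]
    rw [e]
    exact SetLike.mul_mem_graded (SetLike.pow_mem_graded m' hr) (SetLike.pow_mem_graded m hs)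
  · rw [map_mul, map_pow, map_pow]
    exact mul_ne_zero (pow_ne_zero _ hr0) (pow_ne_zero _ hs0)

theorem semi_nsmul (h : SemiampleF 𝒜 u β) (k : ℕ) : SemiampleF 𝒜 u (k • β) := by
  induction k with
  | zero => rw [zero_smul]; exact semi_zero
  | succ k ih => rw [succ_nsmul]; exact semi_add ih h

end Fibre

section Quotient

variable {V R : Type*} [NormedAddCommGroup V] [NormedSpace ℂ V] [FiniteDimensional ℂ V]
  [CommRing R] [Algebra ℂ R] {ρ : ℕ} {𝒜 : Cl ρ → Submodule ℂ R} [GradedAlgebra 𝒜]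
  {Γ : Grp V R} {u : Cl ρ}

/-- The powers of the factor of automorphy have sections without common zeros. -/
def Bpf (𝓛 : Sheaf 𝒜 Γ) (E : ℕ) : Prop :=
  ∀ v₀ : V, ∃ s : V → ℂ, Differentiable ℂ s ∧
    (∀ (γ : Γ) (v : V), s (γ.1.1 v) = 𝓛.e γ v ^ E * s v) ∧ s v₀ ≠ 0

omit [FiniteDimensional ℂ V] [GradedAlgebra 𝒜] in
theorem Bpf.mul {𝓛 : Sheaf 𝒜 Γ} {E : ℕ} (h : Bpf 𝓛 E) (c : ℕ) : Bpf 𝓛 (E * c) := by
  intro v₀
  obtain ⟨s, hs, h1, h2⟩ := h v₀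
  refine ⟨fun v => s v ^ c, hs.pow c, fun γ v => ?_, pow_ne_zero c h2⟩
  beta_reduce
  rw [h1, mul_pow, pow_mul]

omit [FiniteDimensional ℂ V] [GradedAlgebra 𝒜] in
theorem bpf_of_line (hQ : IsQuotient 𝒜 u Γ) {𝓛 : Sheaf 𝒜 Γ} {c : ℕ}
    (h : BaseFree ((𝓛.toLB hQ).pow c)) : Bpf 𝓛 (expo Γ * c) := by
  intro v₀
  obtain ⟨s, hs, h0⟩ := h v₀
  refine ⟨s, hs.holo, fun γ v => ?_, h0⟩
  have h1 := hs.eq ⟨γ.1.1, mem_base γ.2⟩ v
  change s (γ.1.1 v) = (𝓛.toLB hQ).e ⟨γ.1.1, mem_base γ.2⟩ v ^ c * s v at h1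
  rw [h1, Sheaf.toLB_e, ← pow_mul]

omit [FiniteDimensional ℂ V] in
theorem gen_of (hQ : IsQuotient 𝒜 u Γ) {𝓛 : Sheaf 𝒜 Γ} {t m : ℕ}
    (hb : Bpf 𝓛 (Nat.card (gal Γ) * t)) (hf : FreeF 𝒜 u m 𝓛.deg) :
    Generated u 𝓛 (m * (Nat.card (gal Γ) * t)) := by
  classical
  have := hQ.fin_gal
  have : Fintype (gal Γ) := Fintype.ofFinite _
  intro v₀ p hp
  obtain ⟨s, hs, hse, hs0⟩ := hb v₀
  obtain ⟨r, hr, hr0⟩ := exists_nonvanish (K := gal Γ) (𝒜 := 𝒜) (β := m • 𝓛.deg) (p := p)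
    (fun φ => by
      obtain ⟨r, hr, hr0⟩ := hf _ (semistable_comp hQ hp φ.2)
      exact ⟨r, hr, hr0⟩)
  have hn := nrm_mem (𝒜 := 𝒜) (K := gal Γ)
    (fun φ hφ r hr => gal_mem hQ (𝓛.inv.nsmul m) hφ hr) hr
  refine ⟨fun v => s v ^ m • nrm (gal Γ) r ^ t, ⟨fun v => ?_, fun ℓ => ?_, fun γ v => ?_⟩, ?_⟩
  · refine Submodule.smul_mem _ _ ?_
    have h1 := SetLike.pow_mem_graded t hn
    have h2 : t • (Fintype.card (gal Γ) • (m • 𝓛.deg)) = (m * (Nat.card (gal Γ) * t)) • 𝓛.deg := by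
      rw [Nat.card_eq_fintype_card, smul_smul, smul_smul]
      congr 1
      ring
    rwa [h2] at h1
  · have h1 : (fun v => ℓ (s v ^ m • nrm (gal Γ) r ^ t))
        = fun v => s v ^ m * ℓ (nrm (gal Γ) r ^ t) := by
      funext v
      rw [map_smul, smul_eq_mul]
    rw [h1]
    exact (hs.pow m).mul_const _
  · rw [hse, map_smul, map_pow, nrm_fix (mem_gal γ.2), smul_smul, mul_pow, ← pow_mul,
      mul_comm (Nat.card (gal Γ) * t) m]
  · rw [map_smul, map_pow, smul_eq_mul]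
    exact mul_ne_zero (pow_ne_zero _ hs0) (pow_ne_zero _ hr0)

theorem natCast_re (k : ℕ) (z : ℂ) : ((k : ℂ) * z).re = (k : ℝ) * z.re := by
  have : ((k : ℕ) : ℂ) = ((k : ℝ) : ℂ) := by push_cast; rfl
  rw [this, Complex.re_ofReal_mul]

theorem pos_mul {V : Type*} [NormedAddCommGroup V] [NormedSpace ℂ V] {H : V → V → ℂ}
    (hp : IsPositiveForm H) {k : ℕ} (hk : 0 < k) :
    IsPositiveForm (fun v w => (k : ℂ) * H v w) := by
  intro v hv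
  beta_reduce
  rw [natCast_re]
  exact mul_pos (by exact_mod_cast hk) (hp v hv)

theorem nef_mul {V : Type*} [NormedAddCommGroup V] [NormedSpace ℂ V] {H : V → V → ℂ}
    (hp : IsNefForm H) (k : ℕ) : IsNefForm (fun v w => (k : ℂ) * H v w) := by
  intro v
  beta_reduce
  rw [natCast_re]
  exact mul_nonneg (Nat.cast_nonneg _) (hp v)

/-- Sheaves with positive definite Chern form and semiample degree. -/
theorem gen_ample (hQ : IsQuotient 𝒜 u Γ) {𝓛 : Sheaf 𝒜 Γ} {H : V → V → ℂ} (hc : 𝓛.IsChern H)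
    (hp : IsPositiveForm H) {m : ℕ} (hf : FreeF 𝒜 u m 𝓛.deg) :
    ∃ E : ℕ, 0 < E ∧ Generated u 𝓛 (m * E) := by
  have := finite_Lin hQ.torus
  have := hQ.fin_gal
  have hN : 0 < Nat.card (gal Γ) := Nat.card_pos
  have hL : 0 < Nat.card (Lin (base Γ)) := Nat.card_pos
  have h1 := ample_eff hQ.torus (Sheaf.toLB_chern hQ hc) (pos_mul hp (expo_pos hQ))
  have h2 := bpf_of_line hQ h1
  have h3 : expo Γ * (4 * Nat.card (Lin (base Γ)) ^ 5)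
      = Nat.card (gal Γ) * (Nat.card (Lin (base Γ)) * (4 * Nat.card (Lin (base Γ)) ^ 5)) := by
    rw [expo]
    ring
  rw [h3] at h2
  exact ⟨_, by positivity, gen_of hQ h2 hf⟩

/-- Nef sheaves on `X` with `H^1(X, O_X) = 0`: a uniform exponent. -/
theorem gen_nef (hQ : IsQuotient 𝒜 u Γ) (h01 : HOneZero (base Γ)) {n : ℕ}
    (hd : Module.finrank ℂ V = n) {𝓛 : Sheaf 𝒜 Γ} {H : V → V → ℂ} (hc : 𝓛.IsChern H)
    (hp : IsNefForm H) {m : ℕ} (hf : FreeF 𝒜 u m 𝓛.deg) :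
    Generated u 𝓛 (m * (4 * gl3 n ^ 6 * Nat.card (gal Γ))) := by
  have h1 := power_uni hQ.torus h01 hd (Sheaf.toLB_chern hQ hc) (nef_mul hp (expo Γ))
  obtain ⟨c, hcc⟩ := Pool.Agent.R800.UA.card_dvd hQ.torus hd
  have h2 := (bpf_of_line hQ h1).mul c
  have h3 : expo Γ * (4 * gl3 n ^ 5) * c = Nat.card (gal Γ) * (4 * gl3 n ^ 6) := by
    have h4 : gl3 n ^ 6 = gl3 n ^ 5 * (Nat.card (Lin (base Γ)) * c) := by rw [← hcc]; ring
    rw [expo, h4]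
    ring
  rw [h3] at h2
  have h4 := gen_of hQ h2 hf
  rwa [mul_comm (Nat.card (gal Γ)) (4 * gl3 n ^ 6)] at h4

omit [FiniteDimensional ℂ V] [GradedAlgebra 𝒜] in
theorem semi_of_gen {𝓛 : Sheaf 𝒜 Γ} {m : ℕ} (hm : 0 < m) (h : Generated u 𝓛 m) :
    𝓛.IsSemiample u := ⟨m, hm, h⟩

omit [FiniteDimensional ℂ V] [GradedAlgebra 𝒜] in
theorem chern_pow {𝓛 : Sheaf 𝒜 Γ} {H : V → V → ℂ} (h : 𝓛.IsChern H) (m : ℕ) :
    (𝓛.pow m).IsChern (fun v w => (m : ℂ) * H v w) := by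
  obtain ⟨hH, F, hF, hFe⟩ := h
  refine ⟨⟨?_, ?_, ?_⟩, fun v => (m : ℂ) * F v, hF.const_mul _, ?_⟩
  · intro u v w
    rw [hH.add_left, mul_add]
  · intro c v w
    rw [hH.smul_left]
    ring
  · intro v w
    rw [map_mul, ← hH.symm, Complex.conj_natCast]
  · intro γ v
    change ‖𝓛.e γ v ^ m‖ ^ 2 = _
    rw [norm_pow, ← pow_mul, mul_comm, pow_mul, hFe, ← Real.exp_nat_mul]
    congr 1
    rw [natCast_re, natCast_re, natCast_re, natCast_re]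
    ring

omit [GradedAlgebra 𝒜] in
/-- The Chern form of a semiample sheaf is semidefinite. -/
theorem form_of_semi (hF : IsProjectiveVariety 𝒜 u) (hQ : IsQuotient 𝒜 u Γ) {𝓛 : Sheaf 𝒜 Γ}
    {H : V → V → ℂ} (hc : 𝓛.IsChern H) (hs : 𝓛.IsSemiample u) : IsNefForm H := by
  obtain ⟨m, hm, h1⟩ := hs
  have hmr : (0 : ℝ) < m := by exact_mod_cast hm
  obtain ⟨p, hp⟩ := hF.point
  obtain ⟨f, hf, hf0⟩ := h1 0 p hp
  have h4 := Sheaf.nef_of_section hQ (chern_pow hc m) hf.sec ⟨0, fun h => hf0 (by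
    rw [h, map_zero])⟩
  intro v
  have h5 := h4 v
  rw [natCast_re] at h5
  exact nonneg_of_mul_nonneg_right h5 hmr

omit [FiniteDimensional ℂ V] [GradedAlgebra 𝒜] in
theorem deg_of_semi {𝓛 : Sheaf 𝒜 Γ} (hs : 𝓛.IsSemiample u) : SemiampleF 𝒜 u 𝓛.deg := by
  obtain ⟨m, hm, h1⟩ := hs
  refine ⟨m, hm, fun p hp => ?_⟩
  obtain ⟨f, hf, hf0⟩ := h1 0 p hp
  exact ⟨f 0, hf.mem 0, hf0⟩

omit [FiniteDimensional ℂ V] [GradedAlgebra 𝒜] in
theorem twist_chern {𝓛 𝓐 : Sheaf 𝒜 Γ} {H HA : V → V → ℂ} (h : 𝓛.IsChern H) (hA : 𝓐.IsChern HA)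
    (k : ℕ) : (twist 𝓛 𝓐 k).IsChern (fun v w => (k : ℂ) * H v w + HA v w) :=
  Sheaf.chern_tensor (chern_pow h k) hA

omit [FiniteDimensional ℂ V] [GradedAlgebra 𝒜] in
theorem exists_ample (hF : IsProjectiveVariety 𝒜 u) (hQ : IsQuotient 𝒜 u Γ)
    (hproj : ∃ (𝓛 : Sheaf 𝒜 Γ) (H : V → V → ℂ), 𝓛.IsChern H ∧ IsPositiveForm H) :
    ∃ 𝓐 : Sheaf 𝒜 Γ, IsAmple u 𝓐 := by
  obtain ⟨𝓛, H, hc, hp⟩ := hproj
  have := hQ.fin_gal
  have hN : 0 < Nat.card (gal Γ) := Nat.card_pos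
  refine ⟨(Sheaf.ofLB (𝓛.toLB hQ)).tensor (ofDeg (base_of hF) hQ u hQ.inv), ⟨_,
    Sheaf.chern_tensor (Sheaf.ofLB_chern (Sheaf.toLB_chern hQ hc)) ofDeg_chern, ?_⟩,
    Nat.card (gal Γ), hN, ?_⟩
  · have h1 := pos_mul hp (expo_pos hQ)
    intro v hv
    beta_reduce
    rw [add_zero]
    exact h1 v hv
  · change 0 + Nat.card (gal Γ) • u = _
    rw [zero_add]

/-- Nefness of sheaves on `X` in terms of the two factors. -/
theorem nef_iff (hF : IsProjectiveVariety 𝒜 u) (hQ : IsQuotient 𝒜 u Γ)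
    (hproj : ∃ (𝓛 : Sheaf 𝒜 Γ) (H : V → V → ℂ), 𝓛.IsChern H ∧ IsPositiveForm H)
    {𝓛 : Sheaf 𝒜 Γ} {H : V → V → ℂ} (hc : 𝓛.IsChern H) :
    IsNef u 𝓛 ↔ IsNefForm H ∧ NefF 𝒜 u 𝓛.deg := by
  constructor
  · rintro ⟨𝓐, ⟨⟨HA, hA, hpos⟩, c, hc0, hdeg⟩, hall⟩
    constructor
    · intro v
      by_contra hcon
      push Not at hcon
      obtain ⟨k, hk⟩ := exists_nat_gt ((HA v v).re / -(H v v).re)
      have h1 := form_of_semi hF hQ (twist_chern hc hA k) (hall k) v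
      rw [Complex.add_re, natCast_re] at h1
      rw [div_lt_iff₀ (by linarith)] at hk
      linarith
    · intro k
      apply semi_of_nsmul hc0
      have h1 := deg_of_semi (hall (c * k))
      have h2 : (twist 𝓛 𝓐 (c * k)).deg = c • (k • 𝓛.deg + u) := by
        change (c * k) • 𝓛.deg + 𝓐.deg = _
        rw [hdeg, smul_add, mul_smul]
      rwa [h2] at h1
  · rintro ⟨h1, h2⟩
    obtain ⟨𝓐, hamp⟩ := exists_ample hF hQ hproj
    have hamp' := hamp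
    obtain ⟨⟨HA, hA, hpos⟩, c, hc0, hdeg⟩ := hamp'
    refine ⟨𝓐, hamp, fun k => ?_⟩
    have h3 : SemiampleF 𝒜 u (twist 𝓛 𝓐 k).deg := by
      obtain ⟨c', rfl⟩ : ∃ c', c = c' + 1 := ⟨c - 1, by omega⟩
      change SemiampleF 𝒜 u (k • 𝓛.deg + 𝓐.deg)
      rw [hdeg, add_smul, one_smul, add_comm (c' • u) u, ← add_assoc]
      exact semi_add (h2 k) (semi_nsmul hF.semiample c')
    obtain ⟨m, hm, h4⟩ := h3
    obtain ⟨E, hE, h5⟩ := gen_ample hQ (twist_chern hc hA k) (fun v hv => by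
      have e1 := hpos v hv
      have e2 := nef_mul h1 k v
      beta_reduce at e2 ⊢
      rw [Complex.add_re]
      linarith) h4
    exact semi_of_gen (Nat.mul_pos hm hE) h5

omit [GradedAlgebra 𝒜] in
/-- A flat line bundle with a section which is not zero is torsion. -/
theorem flat_torsion {Γ₀ : Subgroup (V ≃ᵃ[ℂ] V)} (hΓ : IsTorusQuotient Γ₀) {P : LineBundle Γ₀}
    (hP : IsFlat P) {m : ℕ} {s : V → ℂ} (hs : (P.pow m).IsSection s) (h0 : s 0 ≠ 0) :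
    ∀ γ v, P.e γ v ^ m = 1 := by
  have : ProperSpace V := FiniteDimensional.proper ℂ V
  have hnorm : ∀ (γ : Γ₀) (v : V), ‖s ((γ : V ≃ᵃ[ℂ] V) v)‖ = ‖s v‖ := by
    intro γ v
    have h1 := hs.eq γ v
    change s _ = P.e γ v ^ m * s v at h1
    rw [h1, norm_mul, norm_pow, hP.2, one_pow, one_mul]
  obtain ⟨C, hC⟩ := cobounded (latt Γ₀) hΓ.span_top
  have hbd : Bornology.IsBounded (Set.range s) := by
    have hK : IsCompact (Metric.closedBall (0 : V) C) := isCompact_closedBall _ _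
    obtain ⟨K, hR⟩ := (isBounded_iff_forall_norm_le.1 (hK.image hs.holo.continuous).isBounded)
    rw [isBounded_iff_forall_norm_le]
    refine ⟨K, ?_⟩
    rintro _ ⟨v, rfl⟩
    obtain ⟨b, hb, hbC⟩ := hC v
    have h1 := hnorm (tr b hb) v
    rw [tr_apply] at h1
    rw [← h1]
    exact hR _ ⟨b + v, by rwa [mem_closedBall_zero_iff], rfl⟩
  intro γ v
  have h1 := hs.eq γ v
  change s _ = P.e γ v ^ m * s v at h1
  have h2 : ∀ w, s w = s 0 := fun w => hs.holo.apply_eq_apply_of_bounded hbd _ _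
  rw [h2, h2 v] at h1
  exact (mul_eq_right₀ h0).1 h1.symm

/-- The condition `H^1(X, O_X) = 0` is necessary. -/
theorem hone_of (hF : IsProjectiveVariety 𝒜 u) (hQ : IsQuotient 𝒜 u Γ)
    (hproj : ∃ (𝓛 : Sheaf 𝒜 Γ) (H : V → V → ℂ), 𝓛.IsChern H ∧ IsPositiveForm H)
    (hall : ∀ (𝓛 : Sheaf 𝒜 Γ) (H : V → V → ℂ), 𝓛.IsChern H → IsNef u 𝓛 → 𝓛.IsSemiample u) :
    HOneZero (base Γ) := by
  by_contra h01
  obtain ⟨P, hP, hno⟩ := exists_flat hQ.torus h01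
  have hch := chern_of_flat hP
  have hchS : (Sheaf.ofLB P : Sheaf 𝒜 Γ).IsChern _ := Sheaf.ofLB_chern hch
  have hnefH : IsNefForm (fun _ _ : V => (0 : ℂ)) := fun v => by simp
  have hnef : IsNef u (Sheaf.ofLB P : Sheaf 𝒜 Γ) := (nef_iff hF hQ hproj hchS).2 ⟨hnefH, fun k => by
    change SemiampleF 𝒜 u (k • (0 : Cl ρ) + u)
    rw [smul_zero, zero_add]
    exact hF.semiample⟩
  obtain ⟨m, hm, hgen⟩ := hall _ _ hchS hnef
  obtain ⟨p, hp⟩ := hF.point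
  obtain ⟨f, hf, hf0⟩ := hgen 0 p hp
  have hcon : ∀ v, ∃ c : ℂ, f v = algebraMap ℂ R c := fun v => hF.const _ (by
    have h1 := hf.mem v
    have h2 : m • (Sheaf.ofLB P : Sheaf 𝒜 Γ).deg = 0 := by
      change m • (0 : Cl ρ) = 0
      rw [smul_zero]
    rwa [h2] at h1)
  have hs : (P.pow m).IsSection (fun v => p (f v)) := by
    refine ⟨hf.holo p.toLinearMap, fun b v => ?_⟩
    obtain ⟨δ, hδ⟩ := Sheaf.exists_lift b
    have h1 := hf.eq δ v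
    obtain ⟨c, hc⟩ := hcon v
    rw [hc, AlgEquiv.commutes] at h1
    change p (f ((b : V ≃ᵃ[ℂ] V) v)) = P.e b v ^ m * p (f v)
    rw [← hδ, h1, map_smul, smul_eq_mul, hc]
    congr 2
    change P.e ⟨δ.1.1, _⟩ v = _
    congr 1
    exact Subtype.ext hδ
  have htor := flat_torsion hQ.torus hP hs hf0
  have hker : TorsionOnKernel P (fun _ _ => 0) := by
    refine ⟨m, hm, fun _ => 1, differentiable_const _, fun _ => one_ne_zero, ?_⟩
    intro b hb _ v _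
    rw [htor, mul_one]
  obtain ⟨n, Δ, π, h1, h2⟩ := semiample_of_torsion hQ.torus hch hnefH hker
  exact hno n Δ π h1 h2

/-- The condition on `F` is necessary. -/
theorem deg_of (hF : IsProjectiveVariety 𝒜 u) (hQ : IsQuotient 𝒜 u Γ)
    (hproj : ∃ (𝓛 : Sheaf 𝒜 Γ) (H : V → V → ℂ), 𝓛.IsChern H ∧ IsPositiveForm H)
    (hall : ∀ (𝓛 : Sheaf 𝒜 Γ) (H : V → V → ℂ), 𝓛.IsChern H → IsNef u 𝓛 → 𝓛.IsSemiample u)
    {β : Cl ρ} (hβ : Inv 𝒜 Γ β) (hn : NefF 𝒜 u β) : SemiampleF 𝒜 u β := by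
  have := hQ.fin_gal
  have hN : 0 < Nat.card (gal Γ) := Nat.card_pos
  have hch := ofDeg_chern (D := base_of hF) (hQ := hQ) (hβ := hβ)
  have hnef : IsNef u (ofDeg (base_of hF) hQ β hβ) := (nef_iff hF hQ hproj hch).2
    ⟨fun v => by simp, fun k => by
      change SemiampleF 𝒜 u (k • (Nat.card (gal Γ) • β) + u)
      rw [smul_smul]
      exact hn _⟩
  exact semi_of_nsmul hN (deg_of_semi (hall _ _ hch hnef))

/-- Nef sheaves are numerically semiample. -/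
theorem numerical (hF : IsProjectiveVariety 𝒜 u) (hQ : IsQuotient 𝒜 u Γ) {𝓛 : Sheaf 𝒜 Γ}
    {H : V → V → ℂ} (hc : 𝓛.IsChern H) (hn : IsNefForm H) (hs : SemiampleF 𝒜 u 𝓛.deg) :
    ∃ k : ℕ, 0 < k ∧ ∃ 𝓜 : Sheaf 𝒜 Γ, 𝓜.IsChern (fun v w => (k : ℂ) * H v w) ∧
      𝓜.deg = k • 𝓛.deg ∧ 𝓜.IsSemiample u := by
  have := hQ.fin_gal
  have := finite_Lin hQ.torus
  have hN : 0 < Nat.card (gal Γ) := Nat.card_pos
  have hL : 0 < Nat.card (Lin (base Γ)) := Nat.card_pos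
  obtain ⟨M, hM, hb⟩ := exists_bpf_eff hQ.torus (Sheaf.toLB_chern hQ hc) (nef_mul hn (expo Γ))
  set L := Nat.card (Lin (base Γ)) with hLdef
  set N := Nat.card (gal Γ) with hNdef
  have hexpo : expo Γ = L * N := rfl
  have hE := expo_pos hQ
  set 𝓜 : Sheaf 𝒜 Γ := (Sheaf.ofLB M).tensor
    (ofDeg (base_of hF) hQ ((4 * L ^ 4) • 𝓛.deg) (𝓛.inv.nsmul _)) with h𝓜
  have hdeg : 𝓜.deg = (4 * L ^ 3 * expo Γ) • 𝓛.deg := by
    change 0 + N • ((4 * L ^ 4) • 𝓛.deg) = _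
    rw [zero_add, smul_smul, hexpo]
    congr 1
    ring
  refine ⟨4 * L ^ 3 * expo Γ, by positivity, 𝓜, ?_, hdeg, ?_⟩
  · have h1 := Sheaf.chern_tensor (Sheaf.ofLB_chern (𝒜 := 𝒜) hM)
      (ofDeg_chern (D := base_of hF) (hQ := hQ) (hβ := 𝓛.inv.nsmul (4 * L ^ 4)))
    have h2 : (fun v w => ((4 * L ^ 3 : ℕ) : ℂ) * ((expo Γ : ℂ) * H v w) + 0)
        = fun v w => ((4 * L ^ 3 * expo Γ : ℕ) : ℂ) * H v w := by
      funext v w
      push_cast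
      ring
    rw [← h2]
    exact h1
  · have h1 : Bpf 𝓜 (N * 1) := by
      rw [mul_comm]
      refine Bpf.mul ?_ N
      intro v₀
      obtain ⟨s, hs, h0⟩ := hb v₀
      refine ⟨s, hs.holo, fun γ v => ?_, h0⟩
      have h2 := hs.eq ⟨γ.1.1, mem_base γ.2⟩ v
      change s (γ.1.1 v) = M.e ⟨γ.1.1, mem_base γ.2⟩ v * s v at h2
      rw [h2, pow_one]
      change _ = M.e ⟨γ.1.1, mem_base γ.2⟩ v * 1 * s v
      rw [mul_one]
    obtain ⟨m, hm, h3⟩ : SemiampleF 𝒜 u 𝓜.deg := by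
      rw [hdeg]
      exact semi_nsmul hs _
    exact semi_of_gen (by positivity) (gen_of hQ h1 h3)

end Quotient

end Pool.Agent.W2helper74.CY
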